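import Mathlib

set_option autoImplicit false

namespace Pool.Agent.Results.MP_fad2aa_co.NotLattice

open Finset

/-- The non-vertical line `y = s x - t`; it is the dual of the point `(s, t)`. -/
def line (s t : ℝ) : Set (ℝ × ℝ) := {p | p.2 = s * p.1 - t}

/-- `ℓ` is a line of the plane. -/
def IsLine (ℓ : Set (ℝ × ℝ)) : Prop :=
  ∃ a b c : ℝ, (a ≠ 0 ∨ b ≠ 0) ∧ ℓ = {p | a * p.1 + b * p.2 = c}

open scoped Classical in
/-- The number of incidences between `P` and `L`. -/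
noncomputable def incidences (P : Finset (ℝ × ℝ)) (L : Finset (Set (ℝ × ℝ))) : ℕ :=
  ((P ×ˢ L).filter fun pl => pl.1 ∈ pl.2).card

/-- Homogeneous coordinates. -/
def homog (p : ℝ × ℝ) : Fin 3 → ℝ := ![p.1, p.2, 1]

/-- Some projective transformation (given by an invertible matrix `M`), sending no point of `X` to
the line at infinity, maps `X` into a lattice section `{1,…,a} × {1,…,b}` of size `a * b ≤ s`. -/
def InLatticeSection (X : Finset (ℝ × ℝ)) (s : ℝ) : Prop :=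
  ∃ M : Matrix (Fin 3) (Fin 3) ℝ, M.det ≠ 0 ∧ ∃ a b : ℕ, ((a * b : ℕ) : ℝ) ≤ s ∧
    ∀ p ∈ X, M.mulVec (homog p) 2 ≠ 0 ∧
      ∃ i j : ℕ, 1 ≤ i ∧ i ≤ a ∧ 1 ≤ j ∧ j ≤ b ∧
        M.mulVec (homog p) 0 / M.mulVec (homog p) 2 = i ∧
        M.mulVec (homog p) 1 / M.mulVec (homog p) 2 = j

/-- Alternative (a) of the question with constants `c`, `C`. -/
def AltA (P : Finset (ℝ × ℝ)) (c C : ℝ) : Prop :=
  ∃ P' : Finset (ℝ × ℝ), P' ⊆ P ∧ c * P.card ≤ P'.card ∧ InLatticeSection P' (C * P.card)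

/-- Alternative (b) of the question with constants `c`, `C`: `Q'` is the set of dual points of a
set of non-vertical lines of `L`. -/
def AltB (L : Finset (Set (ℝ × ℝ))) (c C : ℝ) : Prop :=
  ∃ Q' : Finset (ℝ × ℝ), (∀ q ∈ Q', line q.1 q.2 ∈ L) ∧ c * L.card ≤ Q'.card ∧
    InLatticeSection Q' (C * L.card)

/-! ### Numbers `a + b √2` -/

noncomputable def phi (z : ℕ × ℕ) : ℝ := z.1 + z.2 * Real.sqrt 2

lemma irr_aux {u v : ℤ} (h : (u : ℝ) + v * Real.sqrt 2 = 0) : v = 0 := by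
  by_contra hv
  have hirr : Irrational (Real.sqrt 2) := irrational_sqrt_two
  apply hirr
  refine ⟨-(u : ℚ) / v, ?_⟩
  have hv' : (v : ℝ) ≠ 0 := by exact_mod_cast hv
  push_cast
  field_simp
  linarith

lemma phi_injective : Function.Injective phi := by
  rintro ⟨a, b⟩ ⟨a', b'⟩ h
  simp only [phi] at h
  have h1 : (((a : ℤ) - a' : ℤ) : ℝ) + (((b : ℤ) - b' : ℤ) : ℝ) * Real.sqrt 2 = 0 := by
    push_cast
    linarith
  have h2 := irr_aux h1
  rw [h2] at h1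
  have h3 : ((a : ℤ) - a' : ℤ) = 0 := by
    have : (((a : ℤ) - a' : ℤ) : ℝ) = 0 := by simpa using h1
    exact_mod_cast this
  have : a = a' := by omega
  have : b = b' := by omega
  simp [*]

noncomputable def box (N : ℕ) : Finset ℝ := (range N ×ˢ range N).image phi

lemma card_box (N : ℕ) : (box N).card = N ^ 2 := by
  rw [box, card_image_of_injective _ phi_injective, card_product, card_range, sq]

lemma mem_box {N : ℕ} {x : ℝ} : x ∈ box N ↔ ∃ a b : ℕ, a < N ∧ b < N ∧ phi (a, b) = x := by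
  simp [box, and_assoc]

lemma mul_add_mem_box {k l : ℕ} {x s t : ℝ} (hx : x ∈ box k) (hs : s ∈ box l)
    (ht : t ∈ box (k * l)) : s * x + t ∈ box (4 * (k * l)) := by
  rw [mem_box] at *
  obtain ⟨a, b, ha, hb, rfl⟩ := hx
  obtain ⟨a', b', ha', hb', rfl⟩ := hs
  obtain ⟨a'', b'', ha'', hb'', rfl⟩ := ht
  refine ⟨a' * a + 2 * (b' * b) + a'', a' * b + b' * a + b'', ?_, ?_, ?_⟩
  · have h1 : a' * a ≤ l * k := Nat.mul_le_mul ha'.le ha.le
    have h2 : b' * b ≤ l * k := Nat.mul_le_mul hb'.le hb.le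
    nlinarith
  · have h1 : a' * b ≤ l * k := Nat.mul_le_mul ha'.le hb.le
    have h2 : b' * a ≤ l * k := Nat.mul_le_mul hb'.le ha.le
    nlinarith
  · have h2 : Real.sqrt 2 * Real.sqrt 2 = 2 := Real.mul_self_sqrt (by norm_num)
    simp only [phi]
    push_cast
    linear_combination (-(b' : ℝ) * b) * h2

/-! ### No projective map to the integer lattice -/

/-- the determinant of three points -/
def D (p q r : Fin 3 → ℝ) : ℝ := Matrix.det !![p 0, p 1, p 2; q 0, q 1, q 2; r 0, r 1, r 2]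

lemma D_eq (p q r : Fin 3 → ℝ) : D p q r =
    p 0 * (q 1 * r 2 - q 2 * r 1) - p 1 * (q 0 * r 2 - q 2 * r 0) +
      p 2 * (q 0 * r 1 - q 1 * r 0) := by
  rw [D, Matrix.det_fin_three]
  simp
  ring

lemma D_mulVec (M : Matrix (Fin 3) (Fin 3) ℝ) (p q r : Fin 3 → ℝ) :
    D (M.mulVec p) (M.mulVec q) (M.mulVec r) = M.det * D p q r := by
  rw [D_eq, D_eq, Matrix.det_fin_three]
  simp only [Matrix.mulVec, dotProduct, Fin.sum_univ_three]
  ring

/-- Five points: `(x₀, y₀)` off the line `y = y₁`, and four points on it, three of which differ by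
integers and the fourth being at irrational distance. They have no projective image in `ℤ²`. -/
lemma no_image (M : Matrix (Fin 3) (Fin 3) ℝ) (hM : M.det ≠ 0) (x₀ y₀ y₁ x₁ x₂ x₃ x : ℝ)
    (hy : y₀ ≠ y₁) (h13 : ∃ p : ℤ, x₁ - x₃ = p) (h23 : ∃ q : ℤ, x₂ - x₃ = q)
    (hne12 : x₁ ≠ x₂) (hne13 : x₁ ≠ x₃) (hne23 : x₂ ≠ x₃)
    (hx : ∃ u v : ℤ, v ≠ 0 ∧ x₃ - x = u + v * Real.sqrt 2)
    (hint : ∀ p ∈ ({(x₀, y₀), (x₁, y₁), (x₂, y₁), (x₃, y₁), (x, y₁)} : Set (ℝ × ℝ)),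
      M.mulVec (homog p) 2 ≠ 0 ∧ ∃ i j : ℤ,
        M.mulVec (homog p) 0 = i * M.mulVec (homog p) 2 ∧
        M.mulVec (homog p) 1 = j * M.mulVec (homog p) 2) : False := by
  obtain ⟨P, hP⟩ := h13
  obtain ⟨Q, hQ⟩ := h23
  obtain ⟨u, v, hv, hux⟩ := hx
  have hP0 : P ≠ 0 := by
    rintro rfl
    apply hne13
    simp only [Int.cast_zero] at hP
    linarith
  have hQ0 : Q ≠ 0 := by
    rintro rfl
    apply hne23
    simp only [Int.cast_zero] at hQ
    linarith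
  -- integrality of brackets
  have hbr : ∀ a b : ℝ, (a, y₁) ∈ ({(x₀, y₀), (x₁, y₁), (x₂, y₁), (x₃, y₁), (x, y₁)} :
      Set (ℝ × ℝ)) → (b, y₁) ∈ ({(x₀, y₀), (x₁, y₁), (x₂, y₁), (x₃, y₁), (x, y₁)} :
      Set (ℝ × ℝ)) → ∃ d : ℤ, M.det * ((a - b) * (y₀ - y₁)) =
        d * (M.mulVec (homog (x₀, y₀)) 2 * M.mulVec (homog (a, y₁)) 2 *
          M.mulVec (homog (b, y₁)) 2) := by
    intro a b ha hb
    obtain ⟨-, i0, j0, hi0, hj0⟩ := hint (x₀, y₀) (by simp)
    obtain ⟨-, i1, j1, hi1, hj1⟩ := hint _ ha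
    obtain ⟨-, i2, j2, hi2, hj2⟩ := hint _ hb
    refine ⟨-(i0 * (j1 - j2) - j0 * (i1 - i2) + (i1 * j2 - j1 * i2)), ?_⟩
    have hD := D_mulVec M (homog (x₀, y₀)) (homog (a, y₁)) (homog (b, y₁))
    have hD2 : D (homog (x₀, y₀)) (homog (a, y₁)) (homog (b, y₁)) = -((a - b) * (y₀ - y₁)) := by
      rw [D_eq]
      simp [homog]
      ring
    rw [hD2] at hD
    rw [D_eq, hi0, hj0, hi1, hj1, hi2, hj2] at hD
    push_cast
    linear_combination hD
  set w0 := M.mulVec (homog (x₀, y₀)) 2 with hw0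
  set w1 := M.mulVec (homog (x₁, y₁)) 2 with hw1
  set w2 := M.mulVec (homog (x₂, y₁)) 2 with hw2
  set w3 := M.mulVec (homog (x₃, y₁)) 2 with hw3
  set w := M.mulVec (homog (x, y₁)) 2 with hw
  have hw0' : w0 ≠ 0 := (hint (x₀, y₀) (by simp)).1
  have hw1' : w1 ≠ 0 := (hint (x₁, y₁) (by simp)).1
  have hw2' : w2 ≠ 0 := (hint (x₂, y₁) (by simp)).1
  have hw3' : w3 ≠ 0 := (hint (x₃, y₁) (by simp)).1
  have hw' : w ≠ 0 := (hint (x, y₁) (by simp)).1
  obtain ⟨d13, h13⟩ := hbr x₁ x₃ (by simp) (by simp)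
  obtain ⟨d2x, h2x⟩ := hbr x₂ x (by simp) (by simp)
  obtain ⟨d1x, h1x⟩ := hbr x₁ x (by simp) (by simp)
  obtain ⟨d23, h23⟩ := hbr x₂ x₃ (by simp) (by simp)
  rw [← hw1, ← hw3] at h13
  rw [← hw2, ← hw] at h2x
  rw [← hw1, ← hw] at h1x
  rw [← hw2, ← hw3] at h23
  have hyy : y₀ - y₁ ≠ 0 := sub_ne_zero.mpr hy
  -- nonvanishing of the integers
  have hx2 : x₂ - x ≠ 0 := by
    intro h0
    have : ((Q + u : ℤ) : ℝ) + (v : ℝ) * Real.sqrt 2 = 0 := by push_cast; linarith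
    exact hv (irr_aux this)
  have hx1 : x₁ - x ≠ 0 := by
    intro h0
    have : ((P + u : ℤ) : ℝ) + (v : ℝ) * Real.sqrt 2 = 0 := by push_cast; linarith
    exact hv (irr_aux this)
  have hd13 : d13 ≠ 0 := by
    rintro rfl
    rw [Int.cast_zero, zero_mul] at h13
    exact (mul_ne_zero hM (mul_ne_zero (sub_ne_zero.mpr hne13) hyy)) h13
  have hd23 : d23 ≠ 0 := by
    rintro rfl
    rw [Int.cast_zero, zero_mul] at h23
    exact (mul_ne_zero hM (mul_ne_zero (sub_ne_zero.mpr hne23) hyy)) h23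
  have hd1x : d1x ≠ 0 := by
    rintro rfl
    rw [Int.cast_zero, zero_mul] at h1x
    exact (mul_ne_zero hM (mul_ne_zero hx1 hyy)) h1x
  have hd2x : d2x ≠ 0 := by
    rintro rfl
    rw [Int.cast_zero, zero_mul] at h2x
    exact (mul_ne_zero hM (mul_ne_zero hx2 hyy)) h2x
  -- the cross ratio identity
  have hcr : ((d1x * d23 : ℤ) : ℝ) * ((x₁ - x₃) * (x₂ - x)) =
      ((d13 * d2x : ℤ) : ℝ) * ((x₁ - x) * (x₂ - x₃)) := by
    have hW : (M.det * (y₀ - y₁)) ^ 2 ≠ 0 := pow_ne_zero _ (mul_ne_zero hM hyy)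
    have hW2 : (w0 * w1 * w3) * (w0 * w2 * w) ≠ 0 :=
      mul_ne_zero (mul_ne_zero (mul_ne_zero hw0' hw1') hw3')
        (mul_ne_zero (mul_ne_zero hw0' hw2') hw')
    have e1 : (M.det * (y₀ - y₁)) ^ 2 * ((x₁ - x₃) * (x₂ - x)) =
        (d13 * d2x) * ((w0 * w1 * w3) * (w0 * w2 * w)) := by
      calc _ = (M.det * ((x₁ - x₃) * (y₀ - y₁))) * (M.det * ((x₂ - x) * (y₀ - y₁))) := by ring
        _ = _ := by rw [h13, h2x]; ring
    have e2 : (M.det * (y₀ - y₁)) ^ 2 * ((x₁ - x) * (x₂ - x₃)) =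
        (d1x * d23) * ((w0 * w1 * w3) * (w0 * w2 * w)) := by
      calc _ = (M.det * ((x₁ - x) * (y₀ - y₁))) * (M.det * ((x₂ - x₃) * (y₀ - y₁))) := by ring
        _ = _ := by rw [h1x, h23]; ring
    apply mul_left_cancel₀ hW
    push_cast
    calc (M.det * (y₀ - y₁)) ^ 2 * ((d1x : ℝ) * d23 * ((x₁ - x₃) * (x₂ - x))) =
        (d1x * d23) * ((M.det * (y₀ - y₁)) ^ 2 * ((x₁ - x₃) * (x₂ - x))) := by ring
      _ = (d13 * d2x) * ((M.det * (y₀ - y₁)) ^ 2 * ((x₁ - x) * (x₂ - x₃))) := by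
        rw [e1, e2]; ring
      _ = _ := by ring
  set A : ℤ := d1x * d23 with hA
  set B : ℤ := d13 * d2x with hB
  have hA0 : A ≠ 0 := mul_ne_zero hd1x hd23
  have hx2' : x₂ - x = ((Q + u : ℤ) : ℝ) + v * Real.sqrt 2 := by push_cast; linarith
  have hx1' : x₁ - x = ((P + u : ℤ) : ℝ) + v * Real.sqrt 2 := by push_cast; linarith
  rw [hP, hQ, hx2', hx1'] at hcr
  have h3 : ((A * P * (Q + u) - B * Q * (P + u) : ℤ) : ℝ) +
      ((v * (A * P - B * Q) : ℤ) : ℝ) * Real.sqrt 2 = 0 := by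
    push_cast
    push_cast at hcr
    linear_combination hcr
  have h4 := irr_aux h3
  have h5 : A * P = B * Q := by
    rcases mul_eq_zero.mp h4 with h | h
    · exact absurd h hv
    · linarith
  rw [h4] at h3
  have h6 : (A * P * (Q + u) - B * Q * (P + u) : ℤ) = 0 := by
    have : ((A * P * (Q + u) - B * Q * (P + u) : ℤ) : ℝ) = 0 := by
      simpa using h3
    exact_mod_cast this
  rw [← h5] at h6
  have h7 : A * P * (Q - P) = 0 := by linear_combination h6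
  have h8 : Q = P := by
    rcases mul_eq_zero.mp h7 with h | h
    · exact absurd h (mul_ne_zero hA0 hP0)
    · linarith
  apply hne12
  rw [h8] at hQ
  linarith

/-- A large subset of `box k` contains the four numbers needed in `no_image`. -/
lemma four_points (k : ℕ) (X : Finset ℝ) (hX : X ⊆ box k) (hcard : 2 * k < X.card) :
    ∃ x₁ ∈ X, ∃ x₂ ∈ X, ∃ x₃ ∈ X, ∃ x ∈ X, (∃ p : ℤ, x₁ - x₃ = p) ∧ (∃ q : ℤ, x₂ - x₃ = q) ∧
      x₁ ≠ x₂ ∧ x₁ ≠ x₃ ∧ x₂ ≠ x₃ ∧ ∃ u v : ℤ, v ≠ 0 ∧ x₃ - x = u + v * Real.sqrt 2 := by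
  classical
  set Z := (range k ×ˢ range k).filter (fun z => phi z ∈ X) with hZ
  have hZX : Z.image phi = X := by
    ext x
    simp only [hZ, mem_image, mem_filter]
    constructor
    · rintro ⟨z, ⟨_, h⟩, rfl⟩
      exact h
    · intro hx
      have := hX hx
      rw [box, mem_image] at this
      obtain ⟨z, hz, rfl⟩ := this
      exact ⟨z, ⟨hz, hx⟩, rfl⟩
  have hZcard : Z.card = X.card := by
    rw [← hZX, card_image_of_injective _ phi_injective]
  obtain ⟨b, hb, hb2⟩ := exists_lt_card_fiber_of_mul_lt_card_of_maps_to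
    (s := Z) (t := range k) (f := Prod.snd) (n := 2) (fun z hz => by
      have := (mem_filter.mp hz).1
      exact (mem_product.mp this).2) (by rw [card_range, hZcard]; omega)
  rw [two_lt_card] at hb2
  obtain ⟨z1, hz1, z2, hz2, z3, hz3, h12, h13, h23⟩ := hb2
  -- a point outside the row
  have hout : ∃ z ∈ Z, z.2 ≠ b := by
    by_contra hcon
    push Not at hcon
    have hsub : Z ⊆ (range k).image (fun a => (a, b)) := by
      intro z hz
      have h1 := (mem_product.mp (mem_filter.mp hz).1).1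
      rw [mem_image]
      exact ⟨z.1, h1, by rw [← hcon z hz]⟩
    have := card_le_card hsub
    have h2 := card_image_le (s := range k) (f := fun a => (a, b))
    rw [card_range] at h2
    omega
  obtain ⟨z, hz, hzb⟩ := hout
  simp only [mem_filter] at hz1 hz2 hz3
  refine ⟨phi z1, ?_, phi z2, ?_, phi z3, ?_, phi z, ?_, ?_, ?_, ?_, ?_, ?_, ?_⟩
  · exact (mem_filter.mp hz1.1).2
  · exact (mem_filter.mp hz2.1).2
  · exact (mem_filter.mp hz3.1).2
  · exact (mem_filter.mp hz).2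
  · refine ⟨(z1.1 : ℤ) - z3.1, ?_⟩
    simp only [phi, hz1.2, hz3.2]
    push_cast
    ring
  · refine ⟨(z2.1 : ℤ) - z3.1, ?_⟩
    simp only [phi, hz2.2, hz3.2]
    push_cast
    ring
  · exact fun h => h12 (phi_injective h)
  · exact fun h => h13 (phi_injective h)
  · exact fun h => h23 (phi_injective h)
  · refine ⟨(z3.1 : ℤ) - z.1, (z3.2 : ℤ) - z.2, ?_, ?_⟩
    · rw [hz3.2]
      intro h
      apply hzb
      omega
    · simp only [phi]
      push_cast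
      ring

/-- A positive fraction of `box k × Y` has no projective image in an integer lattice section. -/
lemma not_inLatticeSection (k : ℕ) (Y : Finset ℝ) (P' : Finset (ℝ × ℝ))
    (hsub : P' ⊆ box k ×ˢ Y) (hbig : 2 * k * Y.card < P'.card) (hbig2 : k ^ 2 < P'.card) (s : ℝ) :
    ¬ InLatticeSection P' s := by
  classical
  rintro ⟨M, hM, a, b, -, hMP⟩
  obtain ⟨y₁, hy₁, hcard⟩ := exists_lt_card_fiber_of_mul_lt_card_of_maps_to
    (s := P') (t := Y) (f := Prod.snd) (n := 2 * k) (fun p hp => (mem_product.mp (hsub hp)).2)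
    (by rw [mul_comm]; exact hbig)
  set X := (P'.filter (fun p => p.2 = y₁)).image Prod.fst with hX
  have hXcard : X.card = (P'.filter (fun p => p.2 = y₁)).card := by
    apply card_image_of_injOn
    intro p hp q hq h
    simp only [coe_filter, Set.mem_ofPred_eq] at hp hq
    exact Prod.ext h (hp.2.trans hq.2.symm)
  have hXbox : X ⊆ box k := by
    intro x hx
    rw [hX, mem_image] at hx
    obtain ⟨p, hp, rfl⟩ := hx
    exact (mem_product.mp (hsub (mem_filter.mp hp).1)).1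
  have hXmem : ∀ x ∈ X, (x, y₁) ∈ P' := by
    intro x hx
    rw [hX, mem_image] at hx
    obtain ⟨p, hp, rfl⟩ := hx
    have := mem_filter.mp hp
    rw [← this.2]
    exact this.1
  obtain ⟨x₁, hx₁, x₂, hx₂, x₃, hx₃, x, hx, h13, h23, hne12, hne13, hne23, hirr⟩ :=
    four_points k X hXbox (by rw [hXcard]; exact hcard)
  -- a point off the line
  have hoff : ∃ p ∈ P', p.2 ≠ y₁ := by
    by_contra hcon
    push Not at hcon
    have h1 : P' ⊆ (box k).image (fun x => (x, y₁)) := by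
      intro p hp
      rw [mem_image]
      exact ⟨p.1, (mem_product.mp (hsub hp)).1, by rw [← hcon p hp]⟩
    have h2 := card_le_card h1
    have h3 := card_image_le (s := box k) (f := fun x => (x, y₁))
    rw [card_box] at h3
    omega
  obtain ⟨⟨x₀, y₀⟩, hp₀, hy₀⟩ := hoff
  refine no_image M hM x₀ y₀ y₁ x₁ x₂ x₃ x hy₀ h13 h23 hne12 hne13 hne23 hirr ?_
  intro p hp
  have hpP : p ∈ P' := by
    simp only [Set.mem_insert_iff, Set.mem_singleton_iff] at hp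
    rcases hp with rfl | rfl | rfl | rfl | rfl
    · exact hp₀
    · exact hXmem _ hx₁
    · exact hXmem _ hx₂
    · exact hXmem _ hx₃
    · exact hXmem _ hx
  obtain ⟨h0, i, j, -, -, -, -, hi, hj⟩ := hMP p hpP
  refine ⟨h0, i, j, ?_, ?_⟩
  · rw [div_eq_iff h0] at hi
    exact_mod_cast hi
  · rw [div_eq_iff h0] at hj
    exact_mod_cast hj

/-! ### The configuration -/

lemma line_injective {s t s' t' : ℝ} (h : line s t = line s' t') : s = s' ∧ t = t' := by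
  have h0 : ((0 : ℝ), -t) ∈ line s' t' := by
    rw [← h]; simp [line]
  have h1 : ((1 : ℝ), s - t) ∈ line s' t' := by
    rw [← h]; simp [line]
  simp only [line, Set.mem_ofPred_eq] at h0 h1
  constructor <;> linarith

lemma line_isLine (s t : ℝ) : IsLine (line s t) := by
  refine ⟨s, -1, t, Or.inr (by norm_num), ?_⟩
  ext p
  simp only [line, Set.mem_ofPred_eq]
  constructor <;> intro h <;> linarith

/-- Extending a grid of points inside a larger product set. -/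
lemma extend (A B : Finset ℝ) (hA : 0 < A.card) (m : ℕ) (hm : A.card * B.card ≤ m)
    (hm' : A.card ≤ m) :
    ∃ (B' : Finset ℝ) (P : Finset (ℝ × ℝ)), A ×ˢ B ⊆ P ∧ P ⊆ A ×ˢ B' ∧ P.card = m ∧
      A.card * B'.card ≤ 2 * m := by
  classical
  have h1 : B.card ≤ m / A.card + 1 := by
    have : B.card ≤ m / A.card := (Nat.le_div_iff_mul_le hA).mpr (by rw [mul_comm]; exact hm)
    omega
  obtain ⟨B', hBB', hB'⟩ := Infinite.exists_superset_card_eq B (m / A.card + 1) h1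
  have h2 : m ≤ (A ×ˢ B').card := by
    rw [card_product, hB']
    have := Nat.div_add_mod m A.card
    have h3 := Nat.mod_lt m hA
    nlinarith
  obtain ⟨P, hP1, hP2, hP3⟩ := exists_subsuperset_card_eq
    (product_subset_product_right (s := A) hBB') (by rw [card_product]; exact hm) h2
  refine ⟨B', P, hP1, hP2, hP3, ?_⟩
  rw [hB', mul_add, mul_one]
  have := Nat.mul_div_le m A.card
  omega

/-- The configuration, for parameters `k`, `l`. -/
lemma config (k l m n : ℕ) (hk : 0 < k) (hl : 0 < l) (hm : 16 * k ^ 4 * l ^ 2 ≤ m)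
    (hn : k ^ 2 * l ^ 4 ≤ n) :
    ∃ (P : Finset (ℝ × ℝ)) (L : Finset (Set (ℝ × ℝ))), P.card = m ∧ L.card = n ∧
      (∀ ℓ ∈ L, IsLine ℓ) ∧ k ^ 4 * l ^ 4 ≤ incidences P L ∧
      (∀ c C : ℝ, 0 < c → 4 < c * k → ¬ AltA P c C) ∧
      (∀ c C : ℝ, 0 < c → 4 < c * l → ¬ AltB L c C) := by
  classical
  have hk1 : 1 ≤ k := hk
  have hl1 : 1 ≤ l := hl
  have hk2 : 1 ≤ k ^ 2 := Nat.one_le_pow _ _ hk
  have hl2 : 1 ≤ l ^ 2 := Nat.one_le_pow _ _ hl
  have hkl2 : 1 ≤ k ^ 2 * l ^ 2 := Nat.mul_le_mul hk2 hl2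
  have hkm : k ^ 2 ≤ m := by
    calc k ^ 2 = k ^ 2 * 1 := by ring
      _ ≤ k ^ 2 * (16 * (k ^ 2 * l ^ 2)) := Nat.mul_le_mul_left _ (by omega)
      _ = 16 * k ^ 4 * l ^ 2 := by ring
      _ ≤ m := hm
  have hln : l ^ 2 ≤ n := by
    calc l ^ 2 = l ^ 2 * 1 := by ring
      _ ≤ l ^ 2 * (k ^ 2 * l ^ 2) := Nat.mul_le_mul_left _ hkl2
      _ = k ^ 2 * l ^ 4 := by ring
      _ ≤ n := hn
  -- points
  obtain ⟨Y, P, hP1, hP2, hPcard, hY⟩ := extend (box k) (box (4 * (k * l)))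
    (by rw [card_box]; positivity) m
    (by rw [card_box, card_box]; calc _ = 16 * k ^ 4 * l ^ 2 := by ring
          _ ≤ m := hm)
    (by rw [card_box]; exact hkm)
  -- dual points
  set T := (box (k * l)).image (fun t => -t) with hT
  have hTcard : T.card = (k * l) ^ 2 := by
    rw [hT, card_image_of_injective _ neg_injective, card_box]
  obtain ⟨U, Q, hQ1, hQ2, hQcard, hU⟩ := extend (box l) T
    (by rw [card_box]; positivity) n
    (by rw [card_box, hTcard]; calc _ = k ^ 2 * l ^ 4 := by ring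
          _ ≤ n := hn)
    (by rw [card_box]; exact hln)
  rw [card_box] at hY hU
  set L := Q.image (fun q => line q.1 q.2) with hL
  have hinj : Function.Injective (fun q : ℝ × ℝ => line q.1 q.2) := by
    intro p q h
    obtain ⟨h1, h2⟩ := line_injective h
    exact Prod.ext h1 h2
  have hLcard : L.card = n := by rw [hL, card_image_of_injective _ hinj, hQcard]
  refine ⟨P, L, hPcard, hLcard, ?_, ?_, ?_, ?_⟩
  · intro ℓ hℓ
    rw [hL, mem_image] at hℓ
    obtain ⟨q, -, rfl⟩ := hℓ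
    exact line_isLine _ _
  · -- incidences
    set g : ℝ × ℝ × ℝ → (ℝ × ℝ) × Set (ℝ × ℝ) :=
      fun z => ((z.1, z.2.1 * z.1 + z.2.2), line z.2.1 (-z.2.2)) with hg
    have hginj : Function.Injective g := by
      rintro ⟨x, s, t⟩ ⟨x', s', t'⟩ h
      simp only [hg, Prod.mk.injEq] at h
      obtain ⟨⟨h1, -⟩, h2⟩ := h
      obtain ⟨h3, h4⟩ := line_injective h2
      simp only [Prod.mk.injEq]
      exact ⟨h1, h3, by linarith⟩
    have hmaps : (box k ×ˢ box l ×ˢ box (k * l)).image g ⊆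
        (P ×ˢ L).filter fun pl => pl.1 ∈ pl.2 := by
      intro z hz
      rw [mem_image] at hz
      obtain ⟨⟨x, s, t⟩, hxst, rfl⟩ := hz
      simp only [mem_product] at hxst
      obtain ⟨hx, hs, ht⟩ := hxst
      simp only [hg, mem_filter, mem_product]
      refine ⟨⟨?_, ?_⟩, ?_⟩
      · apply hP1
        rw [mem_product]
        exact ⟨hx, mul_add_mem_box hx hs ht⟩
      · rw [hL, mem_image]
        refine ⟨(s, -t), hQ1 ?_, rfl⟩
        rw [mem_product]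
        exact ⟨hs, mem_image_of_mem _ ht⟩
      · simp [line]
    have := card_le_card hmaps
    rw [card_image_of_injective _ hginj, card_product, card_product, card_box, card_box,
      card_box] at this
    have h2 : incidences P L = ((P ×ˢ L).filter fun pl => pl.1 ∈ pl.2).card := rfl
    rw [h2]
    calc k ^ 4 * l ^ 4 = k ^ 2 * (l ^ 2 * (k * l) ^ 2) := by ring
      _ ≤ _ := this
  · rintro c C hc hck ⟨P', hP', hP'card, hlat⟩
    rw [hPcard] at hP'card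
    have hkR : (1 : ℝ) ≤ k := by exact_mod_cast hk1
    have hmR : (16 * k ^ 4 * l ^ 2 : ℝ) ≤ m := by exact_mod_cast hm
    have hYR : ((k : ℝ) ^ 2 * Y.card) ≤ 2 * m := by exact_mod_cast hY
    have hl2R : (1 : ℝ) ≤ l ^ 2 := by exact_mod_cast hl2
    have hmpos : (0 : ℝ) < m := by
      have : (0 : ℝ) < 16 * k ^ 4 * l ^ 2 := by positivity
      linarith
    refine not_inLatticeSection k Y P' (hP'.trans hP2) ?_ ?_ _ hlat
    · have : (2 * k * Y.card : ℝ) < P'.card := by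
        refine lt_of_lt_of_le ?_ hP'card
        have h1 : (2 * k * Y.card : ℝ) * k ≤ 4 * m := by nlinarith
        have h2 : (4 : ℝ) * m < c * k * m := by nlinarith
        have h3 : (2 * k * Y.card : ℝ) * k < c * m * k := by linarith
        exact lt_of_mul_lt_mul_right h3 (by linarith)
      exact_mod_cast this
    · have : ((k ^ 2 : ℕ) : ℝ) < P'.card := by
        refine lt_of_lt_of_le ?_ hP'card
        push_cast
        have h1 : (k : ℝ) ^ 4 ≤ k ^ 4 * l ^ 2 := by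
          have : (0 : ℝ) ≤ (k : ℝ) ^ 4 := by positivity
          nlinarith
        have h2 : c * (16 * k ^ 4) ≤ c * m := by
          apply mul_le_mul_of_nonneg_left _ hc.le
          linarith
        have h3 : (4 : ℝ) * (16 * k ^ 3) < c * k * (16 * k ^ 3) := by
          apply mul_lt_mul_of_pos_right hck
          positivity
        have h4 : (k : ℝ) ^ 2 ≤ k ^ 3 := pow_le_pow_right₀ hkR (by norm_num)
        nlinarith
      exact_mod_cast this
  · rintro c C hc hcl ⟨Q', hQ', hQ'card, hlat⟩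
    rw [hLcard] at hQ'card
    have hQ'Q : Q' ⊆ Q := by
      intro q hq
      have := hQ' q hq
      rw [hL, mem_image] at this
      obtain ⟨q', hq', hqq'⟩ := this
      rwa [hinj hqq'] at hq'
    have hlR : (1 : ℝ) ≤ l := by exact_mod_cast hl1
    have hnR : (k ^ 2 * l ^ 4 : ℝ) ≤ n := by exact_mod_cast hn
    have hUR : ((l : ℝ) ^ 2 * U.card) ≤ 2 * n := by exact_mod_cast hU
    have hk2R : (1 : ℝ) ≤ k ^ 2 := by exact_mod_cast hk2
    have hnpos : (0 : ℝ) < n := by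
      have : (0 : ℝ) < k ^ 2 * l ^ 4 := by positivity
      linarith
    refine not_inLatticeSection l U Q' (hQ'Q.trans hQ2) ?_ ?_ _ hlat
    · have : (2 * l * U.card : ℝ) < Q'.card := by
        refine lt_of_lt_of_le ?_ hQ'card
        have h1 : (2 * l * U.card : ℝ) * l ≤ 4 * n := by nlinarith
        have h2 : (4 : ℝ) * n < c * l * n := by nlinarith
        have h3 : (2 * l * U.card : ℝ) * l < c * n * l := by linarith
        exact lt_of_mul_lt_mul_right h3 (by linarith)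
      exact_mod_cast this
    · have : ((l ^ 2 : ℕ) : ℝ) < Q'.card := by
        refine lt_of_lt_of_le ?_ hQ'card
        push_cast
        have h1 : (l : ℝ) ^ 4 ≤ k ^ 2 * l ^ 4 := by
          have : (0 : ℝ) ≤ (l : ℝ) ^ 4 := by positivity
          nlinarith
        have h2 : c * (l ^ 4) ≤ c * n := by
          apply mul_le_mul_of_nonneg_left _ hc.le
          linarith
        have h3 : (4 : ℝ) * (l ^ 3) < c * l * (l ^ 3) := by
          apply mul_lt_mul_of_pos_right hcl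
          positivity
        have h4 : (l : ℝ) ^ 2 ≤ l ^ 3 := pow_le_pow_right₀ hlR (by norm_num)
        nlinarith
      exact_mod_cast this

/-- Choice of a parameter: a sixth root up to a factor of two. -/
lemma sixth_root (r : ℝ) (R : ℕ) (hR : 1 ≤ R) (hr : (R : ℝ) ^ 6 ≤ r) :
    ∃ k : ℕ, R ≤ k ∧ (k : ℝ) ^ 6 ≤ r ∧ r ≤ 64 * (k : ℝ) ^ 6 := by
  have hr0 : (0 : ℝ) ≤ r := le_trans (by positivity) hr
  set x : ℝ := r ^ ((1 : ℝ) / 6) with hx
  have hx0 : 0 ≤ x := Real.rpow_nonneg hr0 _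
  have hx6 : x ^ 6 = r := by
    rw [hx, ← Real.rpow_natCast, ← Real.rpow_mul hr0]
    norm_num
  have hRx : (R : ℝ) ≤ x := by
    apply le_of_pow_le_pow_left₀ (n := 6) (by norm_num) hx0
    rw [hx6]
    exact hr
  refine ⟨⌊x⌋₊, Nat.le_floor hRx, ?_, ?_⟩
  · rw [← hx6]
    exact pow_le_pow_left₀ (by positivity) (Nat.floor_le hx0) 6
  · have h1 : (1 : ℝ) ≤ ⌊x⌋₊ := by
      have : R ≤ ⌊x⌋₊ := Nat.le_floor hRx
      exact_mod_cast hR.trans this
    have h2 : x ≤ 2 * ⌊x⌋₊ := by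
      have := (Nat.lt_floor_add_one x).le
      linarith
    calc r = x ^ 6 := hx6.symm
      _ ≤ (2 * (⌊x⌋₊ : ℝ)) ^ 6 := pow_le_pow_left₀ hx0 h2 6
      _ = 64 * (⌊x⌋₊ : ℝ) ^ 6 := by ring

/-- For every `c > 0` there is `K` such that for all numbers `m` of points and `n` of lines with
`K √n ≤ m ≤ n² / K` some configuration with at least `(m n)^(2/3) / 2048` incidences satisfies
neither alternative, whatever the constant `C`. -/
theorem result : ∀ c : ℝ, 0 < c → ∃ K : ℝ, 0 < K ∧ ∀ m n : ℕ, 0 < n →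
    K * Real.sqrt n ≤ m → K * m ≤ (n : ℝ) ^ 2 →
    ∃ (P : Finset (ℝ × ℝ)) (L : Finset (Set (ℝ × ℝ))), P.card = m ∧ L.card = n ∧
      (∀ ℓ ∈ L, IsLine ℓ) ∧
      (1 / 2048 : ℝ) * ((m : ℝ) ^ (2 / 3 : ℝ) * (n : ℝ) ^ (2 / 3 : ℝ)) ≤ incidences P L ∧
      ∀ C : ℝ, ¬ AltA P c C ∧ ¬ AltB L c C := by
  intro c hc
  obtain ⟨R, hR⟩ := exists_nat_gt (4 / c)
  have hRpos : (0 : ℝ) < R := lt_trans (by positivity) hR
  have hR1 : 1 ≤ R := by
    have : 0 < R := by exact_mod_cast hRpos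
    omega
  have hR1R : (1 : ℝ) ≤ R := by exact_mod_cast hR1
  have hcR : 4 < c * R := by
    rw [div_lt_iff₀ hc] at hR
    linarith
  set K : ℝ := 16 * (R : ℝ) ^ 6 with hK
  have hKpos : 0 < K := by positivity
  have hR6 : (1 : ℝ) ≤ (R : ℝ) ^ 6 := one_le_pow₀ hR1R
  refine ⟨K, hKpos, ?_⟩
  intro m n hn0 hmK hnK
  have hnR : (0 : ℝ) < n := by exact_mod_cast hn0
  have hsq : Real.sqrt n * Real.sqrt n = n := Real.mul_self_sqrt hnR.le
  have hsqpos : 0 < Real.sqrt n := Real.sqrt_pos.mpr hnR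
  have hmR : (0 : ℝ) < m := lt_of_lt_of_le (by positivity) hmK
  -- m² ≥ K² n
  have hm2 : K ^ 2 * n ≤ (m : ℝ) ^ 2 := by
    have h1 : (K * Real.sqrt n) * (K * Real.sqrt n) ≤ m * m :=
      mul_self_le_mul_self (by positivity) hmK
    calc K ^ 2 * n = K ^ 2 * (Real.sqrt n * Real.sqrt n) := by rw [hsq]
      _ = (K * Real.sqrt n) * (K * Real.sqrt n) := by ring
      _ ≤ m * m := h1
      _ = (m : ℝ) ^ 2 := by ring
  obtain ⟨k, hRk, hk6, hk6'⟩ := sixth_root ((m : ℝ) ^ 2 / (256 * n)) R hR1 (by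
    rw [le_div_iff₀ (by positivity)]
    refine le_trans ?_ hm2
    have : (R : ℝ) ^ 6 * 256 ≤ K ^ 2 := by
      rw [hK]
      nlinarith
    nlinarith)
  obtain ⟨l, hRl, hl6, hl6'⟩ := sixth_root (16 * (n : ℝ) ^ 2 / m) R hR1 (by
    rw [le_div_iff₀ hmR]
    nlinarith)
  have hk0 : 0 < k := by omega
  have hl0 : 0 < l := by omega
  have hkR : (1 : ℝ) ≤ k := by exact_mod_cast hk0
  have hlR : (1 : ℝ) ≤ l := by exact_mod_cast hl0
  rw [le_div_iff₀ (by positivity)] at hk6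
  rw [div_le_iff₀ (by positivity)] at hk6'
  rw [le_div_iff₀ hmR] at hl6
  rw [div_le_iff₀ hmR] at hl6'
  -- hk6 : k^6 * (256 n) ≤ m^2 ; hl6 : l^6 * m ≤ 16 n^2
  have hmbound : (16 * k ^ 4 * l ^ 2 : ℝ) ≤ m := by
    apply le_of_pow_le_pow_left₀ (n := 3) (by norm_num) hmR.le
    -- (16 k^4 l^2)^3 * (n^2 m) ≤ m^3 * (n^2 m)
    have h1 : ((k : ℝ) ^ 6 * (256 * n)) ^ 2 ≤ ((m : ℝ) ^ 2) ^ 2 :=
      pow_le_pow_left₀ (by positivity) hk6 2
    have h2 : ((k : ℝ) ^ 6 * (256 * n)) ^ 2 * ((l : ℝ) ^ 6 * m) ≤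
        ((m : ℝ) ^ 2) ^ 2 * (16 * (n : ℝ) ^ 2) :=
      mul_le_mul h1 hl6 (by positivity) (by positivity)
    have h3 : (0 : ℝ) < 16 * (n : ℝ) ^ 2 * m := by positivity
    apply le_of_mul_le_mul_right _ h3
    calc (16 * (k : ℝ) ^ 4 * l ^ 2) ^ 3 * (16 * (n : ℝ) ^ 2 * m)
        = ((k : ℝ) ^ 6 * (256 * n)) ^ 2 * ((l : ℝ) ^ 6 * m) := by ring
      _ ≤ ((m : ℝ) ^ 2) ^ 2 * (16 * (n : ℝ) ^ 2) := h2
      _ = (m : ℝ) ^ 3 * (16 * (n : ℝ) ^ 2 * m) := by ring
  have hnbound : (k ^ 2 * l ^ 4 : ℝ) ≤ n := by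
    apply le_of_pow_le_pow_left₀ (n := 3) (by norm_num) hnR.le
    have h1 : ((l : ℝ) ^ 6 * m) ^ 2 ≤ (16 * (n : ℝ) ^ 2) ^ 2 :=
      pow_le_pow_left₀ (by positivity) hl6 2
    have h2 : ((k : ℝ) ^ 6 * (256 * n)) * ((l : ℝ) ^ 6 * m) ^ 2 ≤
        ((m : ℝ) ^ 2) * (16 * (n : ℝ) ^ 2) ^ 2 :=
      mul_le_mul hk6 h1 (by positivity) (by positivity)
    have h3 : (0 : ℝ) < 256 * (n : ℝ) * m ^ 2 := by positivity
    apply le_of_mul_le_mul_right _ h3
    calc ((k : ℝ) ^ 2 * l ^ 4) ^ 3 * (256 * (n : ℝ) * m ^ 2)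
        = ((k : ℝ) ^ 6 * (256 * n)) * ((l : ℝ) ^ 6 * m) ^ 2 := by ring
      _ ≤ ((m : ℝ) ^ 2) * (16 * (n : ℝ) ^ 2) ^ 2 := h2
      _ = (n : ℝ) ^ 3 * (256 * (n : ℝ) * m ^ 2) := by ring
  obtain ⟨P, L, hP, hL, hlines, hinc, hA, hB⟩ := config k l m n hk0 hl0
    (by exact_mod_cast hmbound) (by exact_mod_cast hnbound)
  refine ⟨P, L, hP, hL, hlines, ?_, ?_⟩
  · -- m n ≤ 2^16 k^6 l^6
    have h1 : (m : ℝ) * n ≤ 65536 * ((k : ℝ) ^ 6 * l ^ 6) := by
      have h2 : (m : ℝ) ^ 2 * (16 * (n : ℝ) ^ 2) ≤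
          (64 * (k : ℝ) ^ 6 * (256 * n)) * (64 * (l : ℝ) ^ 6 * m) :=
        mul_le_mul hk6' hl6' (by positivity) (by positivity)
      have h3 : (0 : ℝ) < 16 * (m : ℝ) * n := by positivity
      apply le_of_mul_le_mul_right _ h3
      calc (m : ℝ) * n * (16 * m * n) = (m : ℝ) ^ 2 * (16 * (n : ℝ) ^ 2) := by ring
        _ ≤ _ := h2
        _ = 65536 * ((k : ℝ) ^ 6 * l ^ 6) * (16 * m * n) := by ring
    have hinc' : ((k : ℝ) ^ 4 * l ^ 4) ≤ incidences P L := by exact_mod_cast hinc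
    refine le_trans ?_ hinc'
    rw [← Real.mul_rpow hmR.le hnR.le]
    have h4 : ((m : ℝ) * n) ^ (2 / 3 : ℝ) ≤ 2048 * ((k : ℝ) ^ 4 * l ^ 4) := by
      have h5 : (0 : ℝ) ≤ 2048 * ((k : ℝ) ^ 4 * l ^ 4) := by positivity
      have h6 : ((m : ℝ) * n) ^ 2 ≤ (2048 * ((k : ℝ) ^ 4 * l ^ 4)) ^ 3 := by
        calc ((m : ℝ) * n) ^ 2 ≤ (65536 * ((k : ℝ) ^ 6 * l ^ 6)) ^ 2 :=
              pow_le_pow_left₀ (by positivity) h1 2
          _ = 4294967296 * ((k : ℝ) ^ 12 * l ^ 12) := by ring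
          _ ≤ 8589934592 * ((k : ℝ) ^ 12 * l ^ 12) := by
            apply mul_le_mul_of_nonneg_right (by norm_num)
            positivity
          _ = (2048 * ((k : ℝ) ^ 4 * l ^ 4)) ^ 3 := by ring
      have h7 : ((m : ℝ) * n) ^ (2 / 3 : ℝ) = (((m : ℝ) * n) ^ 2) ^ (1 / 3 : ℝ) := by
        rw [← Real.rpow_natCast, ← Real.rpow_mul (by positivity)]
        norm_num
      have h8 : ((2048 * ((k : ℝ) ^ 4 * l ^ 4)) ^ 3) ^ (1 / 3 : ℝ) =
          2048 * ((k : ℝ) ^ 4 * l ^ 4) := by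
        rw [← Real.rpow_natCast, ← Real.rpow_mul h5]
        norm_num
      rw [h7, ← h8]
      exact Real.rpow_le_rpow (by positivity) h6 (by norm_num)
    linarith
  · intro C
    have hck : 4 < c * k := by
      have : (R : ℝ) ≤ k := by exact_mod_cast hRk
      nlinarith
    have hcl : 4 < c * l := by
      have : (R : ℝ) ≤ l := by exact_mod_cast hRl
      nlinarith
    exact ⟨hA c C hc hck, hB c C hc hcl⟩

/-- The negated form of the question, literally: it follows from `result` with `m = n`. -/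
theorem negation_of_Q1 : ¬ (∀ C₁ c₂ c₃ : ℝ, 0 < C₁ → 0 < c₂ → 0 < c₃ →
    ∃ c C : ℝ, 0 < c ∧ 0 < C ∧ ∃ N : ℕ, ∀ m n : ℕ, N ≤ m → N ≤ n →
      c₂ * Real.sqrt n ≤ m → (m : ℝ) ≤ C₁ * (n : ℝ) ^ 2 →
      ∀ (P : Finset (ℝ × ℝ)) (L : Finset (Set (ℝ × ℝ))), P.card = m → L.card = n →
        (∀ ℓ ∈ L, IsLine ℓ) →
        c₃ * ((m : ℝ) ^ (2 / 3 : ℝ) * (n : ℝ) ^ (2 / 3 : ℝ)) ≤ incidences P L →
        AltA P c C ∨ AltB L c C) := by
  intro h
  obtain ⟨c, C, hc, hC, N, hN⟩ := h 1 1 (1 / 2048) one_pos one_pos (by norm_num)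
  obtain ⟨K, hK, hres⟩ := result c hc
  set n : ℕ := max N (⌈K ^ 2⌉₊ + ⌈K⌉₊ + 1) with hn
  have hn1 : 0 < n := lt_of_lt_of_le (Nat.succ_pos _) (le_max_right _ _)
  have hnN : N ≤ n := le_max_left _ _
  have hn2 : ((⌈K ^ 2⌉₊ + ⌈K⌉₊ + 1 : ℕ) : ℝ) ≤ n := by exact_mod_cast le_max_right _ _
  push_cast at hn2
  have hK2 : K ^ 2 ≤ n := by
    have h1 := Nat.le_ceil (K ^ 2)
    have h2 : (0 : ℝ) ≤ ⌈K⌉₊ := by positivity
    linarith
  have hK1 : K ≤ n := by
    have h1 := Nat.le_ceil K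
    have h2 : (0 : ℝ) ≤ ⌈K ^ 2⌉₊ := by positivity
    linarith
  have hnR : (1 : ℝ) ≤ n := by exact_mod_cast hn1
  have hKs : K ≤ Real.sqrt n := Real.le_sqrt_of_sq_le hK2
  have hss : Real.sqrt n * Real.sqrt n = n := Real.mul_self_sqrt (by linarith)
  have hs0 : 0 ≤ Real.sqrt n := Real.sqrt_nonneg _
  have hs1 : Real.sqrt n ≤ n := by
    have : 1 ≤ Real.sqrt n := Real.one_le_sqrt.mpr hnR
    nlinarith
  obtain ⟨P, L, hP, hL, hlines, hinc, hnot⟩ := hres n n hn1 (by nlinarith) (by nlinarith)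
  rcases hN n n hnN hnN (by linarith) (by nlinarith) P L hP hL hlines hinc with hA | hB
  · exact (hnot C).1 hA
  · exact (hnot C).2 hB

end Pool.Agent.Results.MP_fad2aa_co.NotLattice
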